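import Pool.Agent.Y8.EP.Stm
import Pool.Agent.Y5.E.Blow

/-!
Assembly of `S_BLOW5` (Navier-Stokes with additional linear dissipation of order `2 α'`,
`α' > α` arbitrarily close to `α`; plan of helper5; job 1584).
-/

open Set Filter Topology MeasureTheory

set_option autoImplicit false

namespace Pool.Agent.Y48.EP

open Pool.Agent.Y8.EP Pool.Agent.Y5.D Pool.Agent.Y5.E Pool.Agent.Y5.F Pool.Agent.Y5.E.Bl

section par

variable {κ μ lam Λ M : ℝ} {L C ℓ : ℕ → ℝ} {B : ℕ → ℕ → ℝ}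

theorem μ_le_lam (h : Sq5 κ μ lam Λ M L C ℓ B) : μ ≤ lam := by
  have h1 := h.μ_eq
  have h2 := h.κ0
  have h3 := h.κ1
  have h4 : (0 : ℝ) < μ := lt_of_lt_of_le (by norm_num) h.μ_big
  have h5 : 0 < lam := by
    by_contra hcon
    push Not at hcon
    have : κ * lam ≤ 0 := mul_nonpos_of_nonneg_of_nonpos h2.le hcon
    linarith
  rw [h1]
  nlinarith

theorem lam_big (h : Sq5 κ μ lam Λ M L C ℓ B) : (10 : ℝ) ^ 30 ≤ lam :=
  h.μ_big.trans (μ_le_lam h)

theorem L_ge_one4 (h : Sq5 κ μ lam Λ M L C ℓ B) (n : ℕ) : 1 ≤ L n := by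
  induction n with
  | zero => exact h.L0
  | succ n ih =>
    rw [h.L_succ n]
    have h1 : (1 : ℝ) ≤ lam := le_trans (by norm_num) (lam_big h)
    nlinarith

theorem L_add4 (h : Sq5 κ μ lam Λ M L C ℓ B) (n k : ℕ) : L (n + k) = L n * lam ^ k := by
  induction k with
  | zero => simp
  | succ k ih =>
    rw [← add_assoc, h.L_succ, ih]
    ring

/-- the ratio of the geometric series -/
theorem q_le (h : Sq5 κ μ lam Λ M L C ℓ B) : lam ^ 2 * Real.exp (-(μ / 50)) ≤ 1 / 2 := by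
  have hlam : (1 : ℝ) ≤ lam := le_trans (by norm_num) (lam_big h)
  have hμ : (0 : ℝ) < μ := lt_of_lt_of_le (by norm_num) h.μ_big
  have hM : (1 : ℝ) ≤ M ^ 4 := one_le_pow₀ h.M_one
  have h1 : 2 * lam ^ 2 ≤ (10 ^ 6 * M ^ 4 * lam ^ 3) ^ 10 := by
    have h3 : (1 : ℝ) ≤ lam ^ 28 := one_le_pow₀ hlam
    have h4 : (1 : ℝ) ≤ (M ^ 4) ^ 10 := one_le_pow₀ hM
    have h5 : (10 ^ 6 * M ^ 4 * lam ^ 3) ^ 10 = 10 ^ 60 * (M ^ 4) ^ 10 * (lam ^ 28 * lam ^ 2) := by
      ring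
    rw [h5]
    have h6 : 1 * lam ^ 2 ≤ lam ^ 28 * lam ^ 2 := mul_le_mul_of_nonneg_right h3 (sq_nonneg _)
    have h7 : (2 : ℝ) ≤ 10 ^ 60 * (M ^ 4) ^ 10 := by nlinarith
    calc 2 * lam ^ 2 ≤ 10 ^ 60 * (M ^ 4) ^ 10 * (1 * lam ^ 2) := by
          rw [one_mul]
          exact mul_le_mul_of_nonneg_right h7 (sq_nonneg _)
      _ ≤ 10 ^ 60 * (M ^ 4) ^ 10 * (lam ^ 28 * lam ^ 2) :=
          mul_le_mul_of_nonneg_left h6 (by positivity)
  have h2 : Real.exp (μ / 10 ^ 6) ≤ Real.exp (μ / 50) := by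
    apply Real.exp_le_exp.2
    rw [div_le_div_iff₀ (by norm_num) (by norm_num)]
    nlinarith
  rw [Real.exp_neg, ← div_eq_mul_inv, div_le_iff₀ (Real.exp_pos _)]
  linarith [h.exp_big]

end par

section groups

variable {J : Type} (g : J → ℕ) (z : Ix J → ℝ → ℝ) (t : ℝ)

/-- the bound of the weighted norm from a bound of the tail energies -/
theorem nk_le4 {κ μ lam Λ M : ℝ} {L C ℓ : ℕ → ℝ} {B : ℕ → ℕ → ℝ}
    (hS : Sq5 κ μ lam Λ M L C ℓ B)
    (hs : Summable fun a => z a t ^ 2) (h1 : ∑' a, z a t ^ 2 ≤ 1) (n₀ : ℕ) (K₀ : ℝ)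
    (hY : ∀ k : ℕ, √(Yt (fun n => z (Sum.inl n)) (wz g z) (n₀ + k) t) ≤
      K₀ * Real.exp (-(μ / 100 * k))) :
    nk (rI L g) 1 (fun a => z a t) ≤ ∑ n ∈ Finset.range n₀, L n ^ 2 + 2 * (L n₀ ^ 2 * K₀ ^ 2) := by
  classical
  set e : ℕ → ℝ := fun n => z (Sum.inl n) t ^ 2 + wz g z n t ^ 2 with he
  have hes : Summable e := summ_groups g z t hs
  have he0 : ∀ n, 0 ≤ e n := fun n => by positivity
  have hY0 : ∀ m, 0 ≤ Yt (fun n => z (Sum.inl n)) (wz g z) m t := fun m =>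
    tsum_nonneg fun k => by positivity
  have heY : ∀ m, e m ≤ Yt (fun n => z (Sum.inl n)) (wz g z) m t := by
    intro m
    have h2 : Summable fun k => e (m + k) := hes.comp_injective (add_right_injective m)
    have h3 := h2.le_tsum 0 (fun k _ => he0 _)
    simpa [Yt] using h3
  have hlam : (10 : ℝ) ^ 30 ≤ lam := lam_big hS
  have hlam0 : (0 : ℝ) < lam := lt_of_lt_of_le (by norm_num) hlam
  -- each group has norm at most one
  have he1 : ∀ n, e n ≤ 1 := by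
    intro n
    have hi : Summable fun a : Ix J => if gr g a = n then z a t ^ 2 else 0 := by
      refine Summable.of_nonneg_of_le (fun j => ?_) (fun j => ?_) hs
      · split_ifs
        · positivity
        · exact le_rfl
      · split_ifs
        · exact le_rfl
        · positivity
    have h2 : HasSum ((fun a : Ix J => if gr g a = n then z a t ^ 2 else 0) ∘ Sum.inl)
        (z (Sum.inl n) t ^ 2) := by
      have h3 := hasSum_single
        (f := (fun a : Ix J => if gr g a = n then z a t ^ 2 else 0) ∘ Sum.inl)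
        n (fun m hm => if_neg (fun h => hm h))
      simpa [gr] using h3
    have h3 : HasSum ((fun a : Ix J => if gr g a = n then z a t ^ 2 else 0) ∘ Sum.inr)
        (∑' j : J, if g j = n then z (Sum.inr j) t ^ 2 else 0) :=
      (summ_ite g z t hs n).hasSum
    have h4 : e n = ∑' a : Ix J, if gr g a = n then z a t ^ 2 else 0 := by
      rw [he]
      simp only [wz_sq]
      exact (h2.sum h3).tsum_eq.symm
    rw [h4]
    refine le_trans (hi.tsum_le_tsum (fun a => ?_) hs) h1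
    split_ifs
    · exact le_rfl
    · positivity
  -- the geometric series
  have hq : lam ^ 2 * Real.exp (-(μ / 50)) ≤ 1 / 2 := q_le hS
  set q : ℝ := lam ^ 2 * Real.exp (-(μ / 50)) with hqd
  have hq0 : 0 ≤ q := by positivity
  have hgrp : ∀ k : ℕ, L (n₀ + k) ^ 2 * e (n₀ + k) ≤ L n₀ ^ 2 * K₀ ^ 2 * (1 / 2) ^ k := by
    intro k
    have h2 := hY k
    have h3 := Real.sqrt_nonneg (Yt (fun n => z (Sum.inl n)) (wz g z) (n₀ + k) t)
    have h4 : Yt (fun n => z (Sum.inl n)) (wz g z) (n₀ + k) t ≤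
        (K₀ * Real.exp (-(μ / 100 * k))) ^ 2 := by
      rw [← Real.sq_sqrt (hY0 (n₀ + k))]
      exact pow_le_pow_left₀ h3 h2 2
    have h5 : (K₀ * Real.exp (-(μ / 100 * k))) ^ 2 = K₀ ^ 2 * Real.exp (-(μ / 50)) ^ k := by
      rw [mul_pow, ← Real.exp_nat_mul, ← Real.exp_nat_mul]
      congr 2
      push_cast
      ring
    rw [L_add4 hS]
    have h6 : e (n₀ + k) ≤ K₀ ^ 2 * Real.exp (-(μ / 50)) ^ k := by
      rw [← h5]
      exact (heY _).trans h4
    calc (L n₀ * lam ^ k) ^ 2 * e (n₀ + k)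
        ≤ (L n₀ * lam ^ k) ^ 2 * (K₀ ^ 2 * Real.exp (-(μ / 50)) ^ k) :=
          mul_le_mul_of_nonneg_left h6 (sq_nonneg _)
      _ = L n₀ ^ 2 * K₀ ^ 2 * q ^ k := by
          rw [hqd, mul_pow (lam ^ 2)]
          ring
      _ ≤ L n₀ ^ 2 * K₀ ^ 2 * (1 / 2) ^ k := by
          apply mul_le_mul_of_nonneg_left _ (by positivity)
          exact pow_le_pow_left₀ hq0 hq k
  have hgeo : ∀ N : ℕ, ∑ k ∈ Finset.range N, (1 / 2 : ℝ) ^ k ≤ 2 := by
    intro N
    have := Summable.sum_le_tsum (f := fun k : ℕ => (1 / 2 : ℝ) ^ k) (Finset.range N)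
      (fun k _ => by positivity) summable_geometric_two
    rwa [tsum_geometric_two] at this
  -- the finite sums
  unfold nk
  apply Real.tsum_le_of_sum_le (fun a => sq_nonneg _)
  intro F
  obtain ⟨N, hN⟩ : ∃ N : ℕ, ∀ a ∈ F, gr g a < n₀ + N := by
    refine ⟨F.sup (gr g) + 1, fun a ha => ?_⟩
    have := Finset.le_sup (f := gr g) ha
    omega
  have hmaps : ∀ a ∈ F, gr g a ∈ Finset.range (n₀ + N) := fun a ha => Finset.mem_range.2 (hN a ha)
  rw [← Finset.sum_fiberwise_of_maps_to hmaps]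
  have h7 : ∀ n ∈ Finset.range (n₀ + N),
      ∑ a ∈ F.filter (fun a => gr g a = n), (rI L g a ^ 1 * z a t) ^ 2 ≤ L n ^ 2 * e n := by
    intro n _
    calc ∑ a ∈ F.filter (fun a => gr g a = n), (rI L g a ^ 1 * z a t) ^ 2
        = L n ^ 2 * ∑ a ∈ F.filter (fun a => gr g a = n), z a t ^ 2 := by
          rw [Finset.mul_sum]
          refine Finset.sum_congr rfl (fun a ha => ?_)
          have h8 : rI L g a = L n := by
            unfold rI
            rw [(Finset.mem_filter.1 ha).2]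
          rw [h8, pow_one, mul_pow]
      _ ≤ L n ^ 2 * e n :=
          mul_le_mul_of_nonneg_left (group_le g z t hs F n) (sq_nonneg _)
  refine (Finset.sum_le_sum h7).trans ?_
  rw [Finset.sum_range_add]
  apply add_le_add
  · refine Finset.sum_le_sum (fun n _ => ?_)
    have := he1 n
    nlinarith [sq_nonneg (L n)]
  · calc ∑ k ∈ Finset.range N, L (n₀ + k) ^ 2 * e (n₀ + k)
        ≤ ∑ k ∈ Finset.range N, L n₀ ^ 2 * K₀ ^ 2 * (1 / 2) ^ k :=
          Finset.sum_le_sum (fun k _ => hgrp k)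
      _ = L n₀ ^ 2 * K₀ ^ 2 * ∑ k ∈ Finset.range N, (1 / 2 : ℝ) ^ k := by rw [Finset.mul_sum]
      _ ≤ L n₀ ^ 2 * K₀ ^ 2 * 2 := mul_le_mul_of_nonneg_left (hgeo N) (by positivity)
      _ = 2 * (L n₀ ^ 2 * K₀ ^ 2) := by ring

end groups

theorem t_BLOWA5 : S_BLOWA5 := by
  intro hABS hEST hPERT hRESC hODE J g κ μ lam Λ M L C ℓ B c hK hS
  obtain ⟨hPk, hres⟩ := hRESC κ μ lam Λ M L C ℓ B hS
  obtain ⟨T₁, hode⟩ := hODE κ μ (10 ^ 6 * M ^ 4 * lam ^ 3) (fun n => κ ^ n * L n)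
    (fun n => C n / κ) ℓ B hPk
  have hadm := hEST J g κ μ lam Λ M L C ℓ B c hK hS
  obtain ⟨huniq, hex⟩ := hABS (Ix J) (dF ℓ (Sd κ μ L) g) (rI L g) c hadm
  obtain ⟨z, hz0, hz⟩ := hex (dat J) (dat_Sk _)
  have hinit : Init z := init_of hz0
  have hcons : ∀ T : ℝ, 0 < T → ASol2 (dF ℓ (Sd κ μ L) g) (rI L g) c T z →
      Rapid (rI L g) T z →
      T ≤ T₁ ∧ (Grow5 κ μ T (fun n => z (Sum.inl n)) (wz g z) ∨
      ∃ (n₀ : ℕ) (K₀ : ℝ), ∃ s ∈ Ico 0 T, ∀ t ∈ Ico s T, ∀ k : ℕ,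
        √(Yt (fun n => z (Sum.inl n)) (wz g z) (n₀ + k) t) ≤
          K₀ * Real.exp (-(μ / 100 * k))) := by
    intro T hT hsol hrap
    obtain ⟨-, -, f, hf⟩ := hPERT J g κ μ lam Λ M L C ℓ B c hK hS T z hsol hrap hinit
    obtain ⟨hsys, hY, hgrow⟩ := hres T _ _ f hT hf
    obtain ⟨hT1, hcase⟩ := hode T _ _ _ hT hsys
    refine ⟨hT1, ?_⟩
    rcases hcase with h | ⟨n₀, K₀, s, hs, hn₀⟩
    · exact Or.inl (hgrow h)
    · refine Or.inr ⟨n₀, K₀, s, hs, fun t ht k => ?_⟩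
      rw [hY (n₀ + k) t ⟨hs.1.trans ht.1, ht.2⟩]
      refine le_trans ?_ (hn₀ t ht k)
      have h1 : κ ^ (n₀ + k) ≤ 1 := pow_le_one₀ hS.κ0.le hS.κ1
      exact mul_le_of_le_one_left (Real.sqrt_nonneg _) h1
  rcases hz with hz | ⟨T, hT, hsol, hrap, hnb⟩
  · exfalso
    have := (hcons (|T₁| + 1) (by positivity) (hz _).1 (hz _).2).1
    have := le_abs_self T₁
    linarith
  · obtain ⟨p1, p2, -⟩ := hPERT J g κ μ lam Λ M L C ℓ B c hK hS T z hsol hrap hinit
    refine ⟨T, z, hT, hsol, hinit, hrap, ?_, p1, p2, ?_⟩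
    · -- uniqueness and maximality
      intro T' z' hT' hsol' hinit'
      rcases le_or_gt T' T with h | h
      · exact ⟨h, huniq T' z' z hsol' (ASol2.mono hsol h) (init_eq hinit' hinit)⟩
      · exfalso
        have heq := huniq T z' z (ASol2.mono hsol' h.le) hsol (init_eq hinit' hinit)
        obtain ⟨Mb, hMb⟩ := hsol'.bdd T h
        refine hnb ⟨Mb, fun t ht => ?_⟩
        have h1 : (fun a => z a t) = fun a => z' a t := by
          funext a
          exact (heq a t ht).symm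
        rw [h1]
        exact (hMb t (Ico_subset_Icc_self ht)).2
    · rcases (hcons T hT hsol hrap).2 with h | ⟨n₀, K₀, s, hs, hn₀⟩
      · exact h
      · exfalso
        apply hnb
        obtain ⟨M1, hM1⟩ := hsol.bdd s hs.2
        refine ⟨max M1 (∑ n ∈ Finset.range n₀, L n ^ 2 + 2 * (L n₀ ^ 2 * K₀ ^ 2)),
          fun t ht => ?_⟩
        rcases le_or_gt t s with hts | hts
        · exact (hM1 t ⟨ht.1, hts⟩).2.trans (le_max_left _ _)
        · exact (nk_le4 g z t hS (p1 t ht).1 (p1 t ht).2 n₀ K₀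
            (hn₀ t ⟨hts.le, ht.2⟩)).trans (le_max_right _ _)

end Pool.Agent.Y48.EP
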